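import Pool.Agent.Lib.MP_146d92_al.Exists

/-!
# Semiprimitivity of the rational group algebra of the generic countable group

`GroupOps` is the space of all binary operations on `ℕ` which are group operations, with the
topology inherited from the product space `ℕ^(ℕ × ℕ)`.  We prove that for comeagerly many
`m : GroupOps` the group algebra over the rationals of the group `(ℕ, m)` has zero
Jacobson radical.
-/

namespace Pool.Agent.Results.MP_146d92_al.GenericSemiprimitive

open Pool.Agent.Lib.MP_146d92_al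

/-- The binary operation `m` on `ℕ` is a group operation: it is associative and has a
two-sided unit with respect to which every element has a two-sided inverse. -/
def IsGroupOp (m : ℕ × ℕ → ℕ) : Prop :=
  (∀ x y z, m (m (x, y), z) = m (x, m (y, z))) ∧
    ∃ e, (∀ x, m (e, x) = x ∧ m (x, e) = x) ∧ ∀ x, ∃ y, m (y, x) = e ∧ m (x, y) = e

/-- The set of all group operations on `ℕ`. -/
structure GroupOps : Type where
  /-- The binary operation. -/
  op : ℕ × ℕ → ℕ
  /-- It is a group operation. -/
  isGroupOp : IsGroupOp op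

/-- The topology inherited from the product `ℕ × ℕ → ℕ` of discrete spaces. -/
instance : TopologicalSpace GroupOps :=
  TopologicalSpace.induced GroupOps.op Pi.topologicalSpace

/-- The underlying set `ℕ` of the group `(ℕ, m)`. -/
def Carrier (_m : GroupOps) : Type := ℕ

/-- The group `(ℕ, m)`. -/
noncomputable instance (m : GroupOps) : Group (Carrier m) where
  mul x y := m.op (x, y)
  one := m.isGroupOp.2.choose
  inv x := (m.isGroupOp.2.choose_spec.2 x).choose
  mul_assoc := m.isGroupOp.1
  one_mul x := (m.isGroupOp.2.choose_spec.1 x).1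
  mul_one x := (m.isGroupOp.2.choose_spec.1 x).2
  inv_mul_cancel x := (m.isGroupOp.2.choose_spec.2 x).choose_spec.1

/-- A natural number as an element of the group `(ℕ, m)`. -/
def toC (m : GroupOps) (x : ℕ) : Carrier m := x

theorem toC_mul (m : GroupOps) (x y : ℕ) : toC m x * toC m y = toC m (m.op (x, y)) := rfl

theorem toC_injective (m : GroupOps) : Function.Injective (toC m) := fun _ _ h => h

/-- The dense open sets used in the proof. -/
def U (n : ℕ) : Set GroupOps :=
  {m | ∃ a b c d : ℕ, (∀ f < n, m.op (a, f) = m.op (f, a) ∧ m.op (b, f) = m.op (f, b)) ∧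
    m.op (a, a) = d ∧ m.op (a, b) = m.op (b, d) ∧ m.op (c, a) = m.op (b, c) ∧ d ≠ a}

theorem continuous_eval (p : ℕ × ℕ) : Continuous (fun m : GroupOps => m.op p) :=
  (continuous_apply p).comp continuous_induced_dom

theorem isOpen_U (n : ℕ) : IsOpen (U n) := by
  have : U n = ⋃ a : ℕ, ⋃ b : ℕ, ⋃ c : ℕ, ⋃ d : ℕ,
      ((⋂ f ∈ Finset.range n, ({m : GroupOps | m.op (a, f) = m.op (f, a)} ∩
        {m : GroupOps | m.op (b, f) = m.op (f, b)})) ∩
      {m : GroupOps | m.op (a, a) = d} ∩ {m : GroupOps | m.op (a, b) = m.op (b, d)} ∩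
      {m : GroupOps | m.op (c, a) = m.op (b, c)} ∩ {_m : GroupOps | d ≠ a}) := by
    ext m
    simp only [U, Set.mem_iUnion, Set.mem_inter_iff, Set.mem_iInter, Finset.mem_range]
    constructor
    · rintro ⟨a, b, c, d, h1, h2, h3, h4, h5⟩
      exact ⟨a, b, c, d, ⟨⟨⟨h1, h2⟩, h3⟩, h4⟩, h5⟩
    · rintro ⟨a, b, c, d, ⟨⟨⟨h1, h2⟩, h3⟩, h4⟩, h5⟩
      exact ⟨a, b, c, d, h1, h2, h3, h4, h5⟩
  rw [this]
  have heq : ∀ p q : ℕ × ℕ, IsOpen {m : GroupOps | m.op p = m.op q} := fun p q =>
    (isOpen_discrete {x : ℕ × ℕ | x.1 = x.2}).preimage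
      ((continuous_eval p).prodMk (continuous_eval q))
  have heq' : ∀ (p : ℕ × ℕ) (d : ℕ), IsOpen {m : GroupOps | m.op p = d} := fun p d =>
    (isOpen_discrete {x : ℕ | x = d}).preimage (continuous_eval p)
  refine isOpen_iUnion fun a => isOpen_iUnion fun b => isOpen_iUnion fun c =>
    isOpen_iUnion fun d => ?_
  refine ((((isOpen_biInter_finset ?_).inter (heq' _ _)).inter (heq _ _)).inter (heq _ _)).inter
    isOpen_const
  intro f _
  exact (heq _ _).inter (heq _ _)

/-- Transport of a group structure along an equivalence with `ℕ`. -/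
noncomputable def ofEquiv {P : Type} [Group P] (e : ℕ ≃ P) : GroupOps :=
  ⟨fun p => e.symm (e p.1 * e p.2), by
    refine ⟨fun x y z => by simp [mul_assoc], e.symm 1, fun x => by simp, fun x => ?_⟩
    exact ⟨e.symm (e x)⁻¹, by simp, by simp⟩⟩

theorem ofEquiv_op {P : Type} [Group P] (e : ℕ ≃ P) (x y : ℕ) :
    (ofEquiv e).op (x, y) = e.symm (e x * e y) := rfl

theorem dense_U (n : ℕ) : Dense (U n) := by
  rw [dense_iff_inter_open]
  rintro V ⟨W, hW, rfl⟩ ⟨m0, hm0⟩
  obtain ⟨I, u, hu, hIu⟩ := isOpen_pi_iff.1 hW m0.op hm0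
  obtain ⟨K, _, _, a, b, c, hab, hc, ha⟩ := exists_group
  let T : Finset ℕ := I.image Prod.fst ∪ I.image Prod.snd ∪ I.image m0.op ∪ Finset.range n
  have : Countable (Carrier m0) := inferInstanceAs (Countable ℕ)
  have : Infinite (Carrier m0) := inferInstanceAs (Infinite ℕ)
  obtain ⟨e0⟩ : Nonempty (ℕ ≃ Carrier m0 × K) := nonempty_equiv_of_countable
  let x : T → Carrier m0 × K := fun t => (toC m0 t, 1)
  have hx : Function.Injective x := fun s t h =>
    Subtype.ext (toC_injective m0 (congrArg Prod.fst h))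
  obtain ⟨σ, hσ⟩ := Equiv.Perm.exists_extending_pair (fun t : T => e0 (t : ℕ)) x
    (fun s t h => Subtype.ext (e0.injective h)) hx
  let e : ℕ ≃ Carrier m0 × K := e0.trans σ
  have he : ∀ t ∈ T, e t = (toC m0 t, (1 : K)) := fun t ht => hσ ⟨t, ht⟩
  have hmul : ∀ p : ℕ × ℕ, p ∈ I → (ofEquiv e).op p = m0.op p := by
    rintro ⟨p, q⟩ hp
    rw [ofEquiv_op, Equiv.symm_apply_eq]
    have h1 : p ∈ T := by
      simp only [T, Finset.mem_union, Finset.mem_image]
      exact Or.inl (Or.inl (Or.inl ⟨_, hp, rfl⟩))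
    have h2 : q ∈ T := by
      simp only [T, Finset.mem_union, Finset.mem_image]
      exact Or.inl (Or.inl (Or.inr ⟨_, hp, rfl⟩))
    have h3 : m0.op (p, q) ∈ T := by
      simp only [T, Finset.mem_union, Finset.mem_image]
      exact Or.inl (Or.inr ⟨_, hp, rfl⟩)
    rw [he _ h1, he _ h2, he _ h3, Prod.mk_mul_mk, mul_one, toC_mul]
  refine ⟨ofEquiv e, ?_, ?_⟩
  · apply hIu
    intro p hp
    have h := hmul p hp
    have h' := (hu p hp).2
    rw [← h] at h'
    exact h'
  · refine ⟨e.symm (1, a), e.symm (1, b), e.symm (1, c), e.symm (1, a ^ 2), ?_, ?_, ?_, ?_, ?_⟩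
    · intro f hf
      have h1 : f ∈ T := by
        simp only [T, Finset.mem_union, Finset.mem_range]
        exact Or.inr hf
      simp only [ofEquiv_op, he f h1, Equiv.apply_symm_apply, Prod.mk_mul_mk, one_mul, mul_one,
        and_self]
    · simp only [ofEquiv_op, Equiv.apply_symm_apply, Prod.mk_mul_mk, one_mul, pow_two]
    · simp only [ofEquiv_op, Equiv.apply_symm_apply, Prod.mk_mul_mk, one_mul, hab]
    · simp only [ofEquiv_op, Equiv.apply_symm_apply, Prod.mk_mul_mk, one_mul, hc]
    · intro h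
      have h1 := e.symm.injective h
      have h2 : a ^ 2 = a := congrArg Prod.snd h1
      rw [pow_two] at h2
      exact ha (mul_eq_left.1 h2)

theorem localCondition_of_mem {m : GroupOps} (h : ∀ n, m ∈ U n) :
    LocalCondition (Carrier m) := by
  intro F
  obtain ⟨n, hn⟩ := Finset.exists_nat_subset_range (show Finset ℕ from F)
  obtain ⟨a, b, c, d, h1, h2, h3, h4, h5⟩ := h n
  refine ⟨toC m a, toC m b, toC m c, fun f hf => ?_, ?_, ?_, ?_⟩
  · have h6 := h1 f (Finset.mem_range.1 (hn hf))
    exact ⟨congrArg (toC m) h6.1, congrArg (toC m) h6.2⟩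
  · rw [pow_two, toC_mul, toC_mul, toC_mul, h2]
    exact congrArg (toC m) h3
  · exact congrArg (toC m) h4
  · intro h6
    apply h5
    apply toC_injective m
    rw [← h2, ← toC_mul, h6, mul_one]

/-- For the generic countably infinite group `G`, the group algebra of `G` over the rationals
is semiprimitive: the set of all group operations `m` on `ℕ` such that the Jacobson radical of
the rational group algebra of `(ℕ, m)` vanishes is comeager. -/
theorem result :
    {m : GroupOps | Ring.jacobson (MonoidAlgebra ℚ (Carrier m)) = ⊥} ∈ residual GroupOps := by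
  rw [mem_residual_iff]
  refine ⟨Set.range U, ?_, ?_, Set.countable_range U, ?_⟩
  · rintro _ ⟨n, rfl⟩
    exact isOpen_U n
  · rintro _ ⟨n, rfl⟩
    exact dense_U n
  · intro m hm
    exact jacobson_eq_bot (localCondition_of_mem fun n => hm _ ⟨n, rfl⟩)

end Pool.Agent.Results.MP_146d92_al.GenericSemiprimitive
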